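import Pool.Agent.H38.ET8.W247.ET.Stm

/-! Project ET, part VB: window averages in the kernel `kap`. -/

set_option autoImplicit false

open Finset

namespace Pool.Agent.W451.ET.VB

open Pool.Agent.W247.ET

lemma icc_range (f : ℕ → ℝ) (L : ℕ) : ∑ n ∈ Icc 1 L, f n = ∑ n ∈ range L, f (n + 1) := by
  induction L with
  | zero => simp
  | succ L ih => rw [Finset.sum_Icc_succ_top (by omega), ih, Finset.sum_range_succ]

/-- the bilinear form -/
noncomputable def T (L : ℕ) (a b : ℕ → ℝ) : ℝ :=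
  ∑ n ∈ Icc 1 L, ∑ m ∈ Icc 1 L, a n * b m * kap n m

lemma T_symm (L : ℕ) (a b : ℕ → ℝ) : T L a b = T L b a := by
  unfold T
  rw [Finset.sum_comm]
  refine Finset.sum_congr rfl fun n _ => Finset.sum_congr rfl fun m _ => ?_
  unfold kap
  rw [mul_comm (n : ℝ) (m : ℝ), add_comm (n : ℝ) (m : ℝ)]
  ring

lemma T_range (L : ℕ) (a b : ℕ → ℝ) :
    T L a b = ∑ n ∈ range L, ∑ m ∈ range L, a (n + 1) * b (m + 1) * kap (n + 1) (m + 1) := by
  unfold T
  rw [icc_range]
  refine Finset.sum_congr rfl fun n _ => ?_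
  rw [icc_range]

lemma kd (x y : ℝ) (hx : 0 < x) (hy : 0 < y) :
    |(3 / 2 * ((x + 1) * y) / ((x + 1) + y) ^ 4 - 1 / (4 * ((x + 1) + y) ^ 2)) -
      (3 / 2 * (x * y) / (x + y) ^ 4 - 1 / (4 * (x + y) ^ 2))| ≤ 2 / (x + y) ^ 3 := by
  obtain ⟨s, hs⟩ : ∃ s, s = x + y := ⟨_, rfl⟩
  have hs0 : 0 < s := by rw [hs]; positivity
  have ht : x + 1 + y = s + 1 := by rw [hs]; ring
  rw [ht, ← hs]
  have h1 : 0 ≤ 1 / s ^ 2 - 1 / (s + 1) ^ 2 := by
    rw [sub_nonneg]
    apply one_div_le_one_div_of_le (by positivity)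
    apply pow_le_pow_left₀ hs0.le
    linarith
  have h1' : 1 / s ^ 2 - 1 / (s + 1) ^ 2 ≤ 2 / s ^ 3 := by
    rw [div_sub_div _ _ (by positivity) (by positivity), div_le_div_iff₀ (by positivity)
      (by positivity)]
    nlinarith [pow_pos hs0 2, pow_pos hs0 3, pow_pos hs0 4]
  have h2 : 0 ≤ 1 / s ^ 4 - 1 / (s + 1) ^ 4 := by
    rw [sub_nonneg]
    apply one_div_le_one_div_of_le (by positivity)
    apply pow_le_pow_left₀ hs0.le
    linarith
  have h2' : 1 / s ^ 4 - 1 / (s + 1) ^ 4 ≤ 4 / s ^ 5 := by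
    rw [div_sub_div _ _ (by positivity) (by positivity), div_le_div_iff₀ (by positivity)
      (by positivity)]
    have := pow_pos hs0 4
    have := pow_pos hs0 5
    have := pow_pos hs0 6
    have := pow_pos hs0 7
    have := pow_pos hs0 8
    nlinarith
  have h3 : y / (s + 1) ^ 4 ≤ 1 / s ^ 3 := by
    rw [div_le_div_iff₀ (by positivity) (by positivity)]
    have hys : y ≤ s := by rw [hs]; linarith
    have h5 : s ^ 4 ≤ (s + 1) ^ 4 := pow_le_pow_left₀ hs0.le (by linarith) 4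
    have h6 : y * s ^ 3 ≤ s * s ^ 3 := mul_le_mul_of_nonneg_right hys (by positivity)
    nlinarith
  have h3' : 0 ≤ y / (s + 1) ^ 4 := by positivity
  have h4 : x * y * (1 / s ^ 4 - 1 / (s + 1) ^ 4) ≤ 1 / s ^ 3 := by
    have h7 : x * y ≤ s ^ 2 / 4 := by
      rw [hs]
      nlinarith [sq_nonneg (x - y)]
    calc x * y * (1 / s ^ 4 - 1 / (s + 1) ^ 4) ≤ s ^ 2 / 4 * (4 / s ^ 5) := by
          apply mul_le_mul h7 h2' h2 (by positivity)
      _ = 1 / s ^ 3 := by
          field_simp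
  have h4' : 0 ≤ x * y * (1 / s ^ 4 - 1 / (s + 1) ^ 4) := mul_nonneg (by positivity) h2
  have hkey : (3 / 2 * ((x + 1) * y) / (s + 1) ^ 4 - 1 / (4 * (s + 1) ^ 2)) -
      (3 / 2 * (x * y) / s ^ 4 - 1 / (4 * s ^ 2)) =
      3 / 2 * (y / (s + 1) ^ 4) - 3 / 2 * (x * y * (1 / s ^ 4 - 1 / (s + 1) ^ 4)) +
        1 / 4 * (1 / s ^ 2 - 1 / (s + 1) ^ 2) := by
    field_simp
    ring
  rw [hkey]
  have e2 : 2 / s ^ 3 = 2 * (1 / s ^ 3) := by ring
  rw [e2] at h1' ⊢
  have hp : 0 < 1 / s ^ 3 := by positivity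
  rw [abs_le]
  constructor <;> linarith

lemma kap_diff (n m : ℕ) :
    |kap (n + 2) (m + 1) - kap (n + 1) (m + 1)| ≤ 2 / (((n : ℝ) + 1) + (m + 1)) ^ 3 := by
  have := kd ((n : ℝ) + 1) ((m : ℝ) + 1) (by positivity) (by positivity)
  unfold kap
  push_cast
  rw [show (n : ℝ) + 2 = (n : ℝ) + 1 + 1 by ring]
  exact this

lemma kap_one (m : ℕ) : |kap 1 (m + 1)| ≤ 1 / ((m : ℝ) + 1) - 1 / ((m : ℝ) + 2) := by
  unfold kap
  push_cast
  have hm : (0 : ℝ) ≤ m := Nat.cast_nonneg m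
  have e : 1 / ((m : ℝ) + 1) - 1 / ((m : ℝ) + 2) = 1 / (((m : ℝ) + 1) * (m + 2)) := by
    field_simp
    ring
  have e1 : (1 : ℝ) / (m + 2) ^ 2 ≤ 1 / (((m : ℝ) + 1) * (m + 2)) := by
    apply one_div_le_one_div_of_le (by positivity)
    nlinarith
  rw [e]
  refine le_trans ?_ e1
  have e2 : (1 : ℝ) + (m + 1) = m + 2 := by ring
  rw [e2]
  have e3 : 3 / 2 * (1 * ((m : ℝ) + 1)) / (m + 2) ^ 4 ≤ 1 / (m + 2) ^ 2 := by
    rw [div_le_div_iff₀ (by positivity) (by positivity)]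
    have h1 : 3 / 2 * (1 * ((m : ℝ) + 1)) ≤ (m + 2) ^ 2 := by nlinarith
    calc 3 / 2 * (1 * ((m : ℝ) + 1)) * (m + 2) ^ 2 ≤ (m + 2) ^ 2 * (m + 2) ^ 2 :=
          mul_le_mul_of_nonneg_right h1 (by positivity)
      _ = 1 * (m + 2) ^ 4 := by ring
  have e4 : 0 ≤ 3 / 2 * (1 * ((m : ℝ) + 1)) / (m + 2) ^ 4 := by positivity
  have e5 : 1 / (4 * ((m : ℝ) + 2) ^ 2) = 1 / 4 * (1 / (m + 2) ^ 2) := by
    field_simp
  have e6 : 0 < 1 / ((m : ℝ) + 2) ^ 2 := by positivity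
  rw [e5, abs_le]
  constructor <;> linarith

lemma sum_kap_one (L : ℕ) : ∑ m ∈ range L, |kap 1 (m + 1)| ≤ 1 := by
  have h : ∀ L : ℕ, ∑ m ∈ range L, |kap 1 (m + 1)| ≤ 1 - 1 / ((L : ℝ) + 1) := by
    intro L
    induction L with
    | zero => simp
    | succ L ih =>
      rw [Finset.sum_range_succ]
      have := kap_one L
      push_cast
      rw [show (L : ℝ) + 1 + 1 = L + 2 by ring]
      linarith
  have h1 := h L
  have h2 : 0 < 1 / ((L : ℝ) + 1) := by positivity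
  linarith

lemma sum_cube (x : ℝ) (hx : 0 < x) (M : ℕ) :
    ∑ m ∈ range M, 2 / (x + (m + 1)) ^ 3 ≤ 1 / x - 1 / (x + 1) := by
  have h : ∀ M : ℕ, ∑ m ∈ range M, 2 / (x + (m + 1)) ^ 3 ≤
      1 / (x * (x + 1)) - 1 / ((x + M) * (x + M + 1)) := by
    intro M
    induction M with
    | zero => simp
    | succ M ih =>
      rw [Finset.sum_range_succ]
      push_cast
      have hy : 0 < x + M := by positivity
      obtain ⟨y, hy'⟩ : ∃ y, y = x + M := ⟨_, rfl⟩
      rw [show x + ((M : ℝ) + 1) = y + 1 by rw [hy']; ring]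
      rw [← hy'] at ih hy
      have h5 : 2 / (y + 1) ^ 3 ≤ 1 / (y * (y + 1)) - 1 / ((y + 1) * (y + 1 + 1)) := by
        have e : 1 / (y * (y + 1)) - 1 / ((y + 1) * (y + 1 + 1)) =
            2 / (y * (y + 1) * (y + 2)) := by
          field_simp
          ring
        rw [e]
        apply div_le_div_of_nonneg_left (by norm_num) (by positivity)
        nlinarith
      linarith
  have h1 := h M
  have h2 : 0 < 1 / ((x + M) * (x + M + 1)) := by positivity
  have h3 : 1 / x - 1 / (x + 1) = 1 / (x * (x + 1)) := by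
    field_simp
    ring
  linarith

lemma sum_diff (L : ℕ) :
    ∑ n ∈ range L, ∑ m ∈ range L, |kap (n + 2) (m + 1) - kap (n + 1) (m + 1)| ≤ 1 := by
  have h0 : ∀ N : ℕ, ∑ n ∈ range N, (1 / ((n : ℝ) + 1) - 1 / ((n : ℝ) + 1 + 1)) =
      1 - 1 / ((N : ℝ) + 1) := by
    intro N
    induction N with
    | zero => simp
    | succ N ih =>
      rw [Finset.sum_range_succ, ih]
      push_cast
      ring
  calc _ ≤ ∑ n ∈ range L, (1 / ((n : ℝ) + 1) - 1 / ((n : ℝ) + 1 + 1)) := by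
        refine Finset.sum_le_sum fun n _ => ?_
        refine le_trans ?_ (sum_cube ((n : ℝ) + 1) (by positivity) L)
        exact Finset.sum_le_sum fun m _ => kap_diff n m
    _ = 1 - 1 / ((L : ℝ) + 1) := h0 L
    _ ≤ 1 := by
        have h2 : 0 < 1 / ((L : ℝ) + 1) := by positivity
        linarith

lemma step (K : ℝ) (L : ℕ) (a b : ℕ → ℝ) (ha : ∀ n, 0 ≤ a n ∧ a n ≤ K)
    (hb : ∀ n, 0 ≤ b n ∧ b n ≤ K) (haL : ∀ n, L < n → a n = 0) :
    |T L (fun n => a (n + 1)) b - T L a b| ≤ 2 * K ^ 2 := by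
  have hK : 0 ≤ K := (ha 0).1.trans (ha 0).2
  have e1 : T L a b = ∑ m ∈ range L, a 1 * b (m + 1) * kap 1 (m + 1) +
      ∑ n ∈ range L, ∑ m ∈ range L, a (n + 2) * b (m + 1) * kap (n + 2) (m + 1) := by
    rw [T_range]
    have h1 := Finset.sum_range_succ (fun n => ∑ m ∈ range L, a (n + 1) * b (m + 1) *
      kap (n + 1) (m + 1)) L
    have h2 := Finset.sum_range_succ' (fun n => ∑ m ∈ range L, a (n + 1) * b (m + 1) *
      kap (n + 1) (m + 1)) L
    have h3 : ∑ m ∈ range L, a (L + 1) * b (m + 1) * kap (L + 1) (m + 1) = 0 := by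
      rw [haL (L + 1) (by omega)]
      simp
    rw [h3, add_zero] at h1
    rw [← h1, h2, add_comm]
  have e2 : T L (fun n => a (n + 1)) b - T L a b =
      - (∑ m ∈ range L, a 1 * b (m + 1) * kap 1 (m + 1)) -
      ∑ n ∈ range L, ∑ m ∈ range L, a (n + 2) * b (m + 1) *
        (kap (n + 2) (m + 1) - kap (n + 1) (m + 1)) := by
    rw [e1, T_range]
    simp only [mul_sub, Finset.sum_sub_distrib]
    ring
  have hab : ∀ n m, |a n * b m| ≤ K ^ 2 := by
    intro n m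
    rw [abs_of_nonneg (mul_nonneg (ha n).1 (hb m).1), sq]
    exact mul_le_mul (ha n).2 (hb m).2 (hb m).1 hK
  have b1 : |∑ m ∈ range L, a 1 * b (m + 1) * kap 1 (m + 1)| ≤ K ^ 2 := by
    refine (Finset.abs_sum_le_sum_abs _ _).trans ?_
    calc _ ≤ ∑ m ∈ range L, K ^ 2 * |kap 1 (m + 1)| := by
          refine Finset.sum_le_sum fun m _ => ?_
          rw [abs_mul]
          exact mul_le_mul_of_nonneg_right (hab 1 (m + 1)) (abs_nonneg _)
      _ = K ^ 2 * ∑ m ∈ range L, |kap 1 (m + 1)| := by rw [Finset.mul_sum]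
      _ ≤ K ^ 2 * 1 := mul_le_mul_of_nonneg_left (sum_kap_one L) (by positivity)
      _ = K ^ 2 := mul_one _
  have b2 : |∑ n ∈ range L, ∑ m ∈ range L, a (n + 2) * b (m + 1) *
        (kap (n + 2) (m + 1) - kap (n + 1) (m + 1))| ≤ K ^ 2 := by
    refine (Finset.abs_sum_le_sum_abs _ _).trans ?_
    calc _ ≤ ∑ n ∈ range L, ∑ m ∈ range L,
            K ^ 2 * |kap (n + 2) (m + 1) - kap (n + 1) (m + 1)| := by
          refine Finset.sum_le_sum fun n _ => ?_
          refine (Finset.abs_sum_le_sum_abs _ _).trans ?_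
          refine Finset.sum_le_sum fun m _ => ?_
          rw [abs_mul]
          exact mul_le_mul_of_nonneg_right (hab (n + 2) (m + 1)) (abs_nonneg _)
      _ = K ^ 2 * ∑ n ∈ range L, ∑ m ∈ range L,
            |kap (n + 2) (m + 1) - kap (n + 1) (m + 1)| := by
          simp only [Finset.mul_sum]
      _ ≤ K ^ 2 * 1 := mul_le_mul_of_nonneg_left (sum_diff L) (by positivity)
      _ = K ^ 2 := mul_one _
  rw [e2]
  rw [abs_le] at b1 b2 ⊢
  constructor <;> linarith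

lemma steps (K : ℝ) (L : ℕ) (a b : ℕ → ℝ) (ha : ∀ n, 0 ≤ a n ∧ a n ≤ K)
    (hb : ∀ n, 0 ≤ b n ∧ b n ≤ K) (haL : ∀ n, L < n → a n = 0) (i : ℕ) :
    |T L (fun n => a (n + i)) b - T L a b| ≤ i * (2 * K ^ 2) := by
  induction i with
  | zero => simp
  | succ i ih =>
    have h1 := step K L (fun n => a (n + i)) b (fun n => ha _) hb (fun n hn => haL _ (by omega))
    have e : (fun n => (fun n => a (n + i)) (n + 1)) = (fun n => a (n + (i + 1))) := by
      funext n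
      show a (n + 1 + i) = a (n + (i + 1))
      rw [show n + 1 + i = n + (i + 1) by omega]
    rw [e] at h1
    push_cast
    rw [abs_le] at h1 ih ⊢
    constructor <;> linarith

theorem main : VB_stmt := by
  intro K J hJ
  refine ⟨4 * J * (K : ℝ) ^ 2, ?_⟩
  intro r L hr hL
  have hJ0 : (0 : ℝ) < J := by exact_mod_cast hJ
  have h1 : ∀ i ∈ range J, ∀ i' ∈ range J,
      T L r r - 4 * J * (K : ℝ) ^ 2 ≤ T L (fun n => r (n + i)) (fun n => r (n + i')) := by
    intro i hi i' hi'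
    rw [Finset.mem_range] at hi hi'
    have a1 := steps K L r r hr hr hL i'
    have a2 := steps K L r (fun n => r (n + i')) hr (fun n => hr _) hL i
    rw [T_symm L r (fun n => r (n + i'))] at a2
    have hi1 : (i : ℝ) ≤ J := by exact_mod_cast hi.le
    have hi2 : (i' : ℝ) ≤ J := by exact_mod_cast hi'.le
    have hK : 0 ≤ 2 * (K : ℝ) ^ 2 := by positivity
    have b1 := mul_le_mul_of_nonneg_right hi1 hK
    have b2 := mul_le_mul_of_nonneg_right hi2 hK
    rw [abs_le] at a1 a2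
    linarith [a1.1, a2.1]
  have h2 : ∑ n ∈ Icc 1 L, ∑ m ∈ Icc 1 L, Mw r J n * Mw r J m * kap n m =
      (∑ i ∈ range J, ∑ i' ∈ range J, T L (fun n => r (n + i)) (fun n => r (n + i'))) /
        (J : ℝ) ^ 2 := by
    unfold T
    rw [eq_div_iff (by positivity)]
    have e1 : ∀ n m : ℕ, Mw r J n * Mw r J m * kap n m * (J : ℝ) ^ 2 =
        ∑ i ∈ range J, ∑ i' ∈ range J, r (n + i) * r (m + i') * kap n m := by
      intro n m
      unfold Mw
      have e2 : ∑ i ∈ range J, ∑ i' ∈ range J, r (n + i) * r (m + i') * kap n m =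
          (∑ i ∈ range J, r (n + i)) * (∑ i' ∈ range J, r (m + i')) * kap n m := by
        rw [Finset.sum_mul_sum, Finset.sum_mul]
        refine Finset.sum_congr rfl fun i _ => ?_
        rw [Finset.sum_mul]
      rw [e2]
      field_simp
    rw [Finset.sum_mul]
    simp_rw [Finset.sum_mul, e1]
    have c1 : ∀ n ∈ Icc 1 L, ∑ m ∈ Icc 1 L, ∑ i ∈ range J, ∑ i' ∈ range J,
        r (n + i) * r (m + i') * kap n m = ∑ i ∈ range J, ∑ i' ∈ range J, ∑ m ∈ Icc 1 L,
        r (n + i) * r (m + i') * kap n m := by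
      intro n _
      rw [Finset.sum_comm]
      refine Finset.sum_congr rfl fun i _ => ?_
      rw [Finset.sum_comm]
    rw [Finset.sum_congr rfl c1, Finset.sum_comm]
    refine Finset.sum_congr rfl fun i _ => ?_
    rw [Finset.sum_comm]
  rw [h2]
  have h3 : (∑ i ∈ range J, ∑ i' ∈ range J, (T L r r - 4 * J * (K : ℝ) ^ 2)) ≤
      ∑ i ∈ range J, ∑ i' ∈ range J, T L (fun n => r (n + i)) (fun n => r (n + i')) :=
    Finset.sum_le_sum fun i hi => Finset.sum_le_sum fun i' hi' => h1 i hi i' hi'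
  simp only [Finset.sum_const, Finset.card_range, nsmul_eq_mul] at h3
  have h4 : T L r r - 4 * J * (K : ℝ) ^ 2 ≤
      (∑ i ∈ range J, ∑ i' ∈ range J, T L (fun n => r (n + i)) (fun n => r (n + i'))) /
        (J : ℝ) ^ 2 := by
    rw [le_div_iff₀ (by positivity)]
    nlinarith
  have h5 : T L r r = ∑ n ∈ Icc 1 L, ∑ m ∈ Icc 1 L, r n * r m * kap n m := rfl
  linarith

end Pool.Agent.W451.ET.VB
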